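import Pool.Agent.R379.BW.Main

set_option autoImplicit false

namespace Pool.Agent.Results.MP_b2f7c1_co.ConjRoots

open Pool.Agent.R379.BW

/-- Let `X` be a finite set of nonempty words with combinatorial rank `card X`, whose primitive
roots are pairwise conjugate, and let `w` be a bi-infinite word with two different
`X`-factorizations. Then every `X`-factorization of `w` has all its blocks equal to one word
of `X`. -/
theorem result {α : Type*} (X : Finset (List α)) (hX : ∀ x ∈ X, x ≠ [])
    (hrank : rc X = X.card)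
    (hconj : ∀ x ∈ X, ∀ y ∈ X, ∀ r s : List α, IsRoot r x → IsRoot s y → r ~r s)
    (w : ℤ → α) (c₁ c₂ : ℤ → ℤ) (h₁ : IsFact X w c₁) (h₂ : IsFact X w c₂)
    (hne : Set.range c₁ ≠ Set.range c₂) :
    ∀ c : ℤ → ℤ, IsFact X w c → ∃ a ∈ X, ∀ i : ℤ, win w (c i) (c (i + 1) - c i).toNat = a :=
  fun c hc => main X hX hrank hconj w c₁ c₂ h₁ h₂ hne c hc

end Pool.Agent.Results.MP_b2f7c1_co.ConjRoots
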