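import Pool.Agent.R336.Bi.CircMain

/-!
# MP_b2f7c1_co: bi-infinite factorizations over sets of words with conjugate roots

Let `X` be a finite set of nonempty words with `r_c(X) = card X` whose primitive roots are pairwise
conjugate. If a bi-infinite word `w` has at least two different `X`-factorizations, then every
`X`-factorization of `w` is of the form `α^ℤ`. (Paper proof by helper124.)
-/

set_option autoImplicit false

namespace Pool.Agent.Results.MP_b2f7c1_co.ConjugateRoots

/-- The factor `w(a) w(a+1) ... w(b-1)` of the bi-infinite word `w`. -/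
def factor {A : Type*} (w : ℤ → A) (a b : ℤ) : List A :=
  (List.range (b - a).toNat).map (fun j : ℕ => w (a + j))

/-- `c` is an `X`-factorization of the bi-infinite word `w`. -/
def IsFactorization {A : Type*} (X : Set (List A)) (w : ℤ → A) (c : ℤ → ℤ) : Prop :=
  StrictMono c ∧ (∀ M : ℤ, ∃ i, M < c i) ∧ (∀ M : ℤ, ∃ i, c i < M) ∧
    ∀ i, factor w (c i) (c (i + 1)) ∈ X

/-- The set `Y*` of the products of the words of `Y`. -/
def star {A : Type*} (Y : Set (List A)) : Set (List A) :=
  {u | ∃ l : List (List A), (∀ y ∈ l, y ∈ Y) ∧ l.flatten = u}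

/-- The combinatorial rank of `X`: the least number of elements of a set `Y` of nonempty words
with `X ⊆ Y*`. -/
noncomputable def combRank {A : Type*} (X : Set (List A)) : ℕ :=
  sInf {n | ∃ Y : Finset (List A), Y.card = n ∧ [] ∉ Y ∧ X ⊆ star (Y : Set (List A))}

/-- The power `v^m` of a word. -/
def power {A : Type*} (v : List A) (m : ℕ) : List A := (List.replicate m v).flatten

/-- A word is primitive if it is nonempty and not a proper power. -/
def IsPrimitive {A : Type*} (u : List A) : Prop :=
  u ≠ [] ∧ ∀ (v : List A) (m : ℕ), u = power v m → m = 1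

/-- `ρ` is the primitive root of `u`. -/
def IsPrimitiveRoot {A : Type*} (ρ u : List A) : Prop :=
  IsPrimitive ρ ∧ ∃ k : ℕ, 1 ≤ k ∧ u = power ρ k

/-- Conjugate words. -/
def AreConjugate {A : Type*} (u v : List A) : Prop := ∃ p q : List A, u = p ++ q ∧ v = q ++ p

open R336.Bi

theorem factor_eq_win {A : Type*} (w : ℤ → A) (a b : ℤ) :
    factor w a b = win w a (b - a).toNat := by
  apply List.ext_getElem
  · simp [factor]
  · intro j h1 h2
    rw [getElem_win]
    simp [factor]

theorem full_of_combRank {A : Type*} {X : Finset (List A)}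
    (hr : combRank (X : Set (List A)) = X.card) :
    Full (fun u : {u // u ∈ X} => u.1) := by
  classical
  intro m y hm hy hall
  rw [Fintype.card_coe, ← hr] at hm
  have : combRank (X : Set (List A)) ≤ (Finset.univ.image y).card := by
    apply Nat.sInf_le
    refine ⟨Finset.univ.image y, rfl, ?_, ?_⟩
    · intro hmem
      obtain ⟨j, -, hj⟩ := Finset.mem_image.mp hmem
      exact hy j hj
    · intro u hu
      obtain ⟨s, hs⟩ := hall ⟨u, hu⟩
      refine ⟨s.map y, ?_, ?_⟩
      · intro v hv
        obtain ⟨j, -, rfl⟩ := List.mem_map.mp hv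
        simp
      · rw [← List.flatMap_def]
        exact hs
  have h2 : (Finset.univ.image y).card ≤ m := by
    refine Finset.card_image_le.trans ?_
    simp
  omega

theorem win_power {A : Type*} {W : ℤ → A} {N : ℕ} (hW : ∀ m, W (m + N) = W m) (t : ℤ) (k : ℕ) :
    win W t (k * N) = power (win W t N) k := by
  induction k with
  | zero => simp [power]
  | succ k ih =>
    rw [Nat.succ_mul, add_comm, win_add, power, List.replicate_succ, List.flatten_cons]
    congr 1
    have ih' : win W t (k * N) = (List.replicate k (win W t N)).flatten := ih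
    rw [← ih']
    apply win_ext
    intro j _
    rw [show t + N + j = t + j + N by ring, hW]

/-- The periodic word with period `ρ`. -/
theorem exists_periodic {A : Type*} (ρ : List A) (hρ : ρ ≠ []) :
    ∃ W : ℤ → A, (∀ m, W (m + ρ.length) = W m) ∧ win W 0 ρ.length = ρ := by
  have hpos : 0 < ρ.length := List.length_pos_iff.mpr hρ
  have hz : (0 : ℤ) < ρ.length := by exact_mod_cast hpos
  have hlt : ∀ m : ℤ, (m % ρ.length).toNat < ρ.length := by
    intro m
    have h1 := Int.emod_nonneg m hz.ne'
    have h2 := Int.emod_lt_of_pos m hz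
    omega
  refine ⟨fun m => ρ[(m % ρ.length).toNat]'(hlt m), ?_, ?_⟩
  · intro m
    simp only [Int.add_emod_right]
  · apply List.ext_getElem
    · simp
    · intro j h1 h2
      rw [getElem_win]
      simp only [zero_add]
      congr 1
      rw [Int.emod_eq_of_lt (by positivity) (by exact_mod_cast h2)]
      simp

theorem primitive_period {A : Type*} {W : ℤ → A} {N : ℕ} (hN : 0 < N)
    (hW : ∀ m, W (m + N) = W m) (hprim : IsPrimitive (win W 0 N)) (d : ℤ)
    (hd : ∀ m, W (m + d) = W m) : (N : ℤ) ∣ d := by
  -- the gcd is a period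
  obtain ⟨g, hg⟩ : ∃ g, g = Int.gcd d N := ⟨_, rfl⟩
  have hgpos : 0 < g := by
    rw [hg]
    exact Int.gcd_pos_of_ne_zero_right _ (by exact_mod_cast hN.ne')
  have hgW : ∀ m, W (m + g) = W m := by
    intro m
    have h1 := Int.gcd_eq_gcd_ab d N
    rw [← hg] at h1
    have h2 : m + (g : ℤ) = m + Int.gcdB d N * N + Int.gcdA d N * d := by rw [h1]; ring
    rw [h2, per_mulZ hd, per_mul hW]
  have hgN : g ∣ N := by
    have := Int.gcd_dvd_right d N
    rw [← hg] at this
    exact_mod_cast this
  have hgd : (g : ℤ) ∣ d := by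
    rw [hg]
    exact Int.gcd_dvd_left d N
  obtain ⟨m, hm⟩ := hgN
  have h3 := win_power hgW 0 m
  rw [mul_comm m g, ← hm] at h3
  have h4 := hprim.2 _ _ h3
  rw [h4, mul_one] at hm
  rw [hm]
  exact hgd

theorem full_equiv {A K K' : Type*} [Fintype K] [Fintype K'] {z : K → List A} (h : Full z)
    (e : K' ≃ K) : Full (fun i => z (e i)) := by
  intro m y hm hy hall
  refine h m y (by rwa [← Fintype.card_congr e]) hy ?_
  intro i
  obtain ⟨s, hs⟩ := hall (e.symm i)
  exact ⟨s, by rw [hs]; simp⟩

/-- The circular structure of a full family of powers of conjugate words. -/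
theorem circ_structure {A K : Type*} [Fintype K] [DecidableEq K] [Nonempty K] (z : K → List A)
    (hfull : Full z) (W : ℤ → A) (N : ℕ) (hN : 0 < N) (hW : ∀ m, W (m + N) = W m)
    (pos κ : K → ℕ) (hpos : ∀ i, pos i < N) (hκ : ∀ i, 0 < κ i)
    (hz : ∀ i, z i = win W (pos i) (κ i * N)) :
    ∃ (n : ℕ) (_ : NeZero n) (σ : ZMod n ≃ K) (p : ZMod n → List A) (α : ℤ → ℤ),
      (∀ i, p i ≠ []) ∧ Fac W p (cst n) α ∧ α n - α 0 = N ∧
        ∀ i, (tilde (fun i => κ (σ i)) i).flatMap p = z (σ i) := by
  classical
  -- injectivity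
  have hinj : Function.Injective pos := by
    intro u v huv
    by_contra hne
    refine hfull.of_fintype (J := {m : K // m ≠ v})
      (fun m => if m.1 = u then win W (pos u) N else z m.1) ?_ ?_ ?_
    · rw [Fintype.card_subtype_compl]
      have : 0 < Fintype.card K := Fintype.card_pos
      simp
      exact this
    · intro j
      by_cases hj : j.1 = u
      · simp only [hj, if_true]
        apply List.ne_nil_of_length_pos
        simpa using hN
      · simp only [hj, if_false]
        rw [hz]
        apply List.ne_nil_of_length_pos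
        rw [length_win]
        exact Nat.mul_pos (hκ _) hN
    · intro i
      have hpow : ∀ k : ℕ, (List.replicate k (⟨u, hne⟩ : {m : K // m ≠ v})).flatMap
          (fun m => if m.1 = u then win W (pos u) N else z m.1) = win W (pos u) (k * N) := by
        intro k
        rw [win_power hW, power, List.flatMap_def, List.map_replicate]
        simp
      by_cases hi : i = v
      · exact ⟨List.replicate (κ i) ⟨u, hne⟩, by rw [hpow, hz, hi, huv]⟩
      · by_cases hiu : i = u
        · exact ⟨List.replicate (κ i) ⟨u, hne⟩, by rw [hpow, hz, hiu]⟩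
        · exact ⟨[⟨i, hi⟩], by simp [hiu]⟩
  set n := Fintype.card K with hn
  have hnpos : 0 < n := Fintype.card_pos
  have hNZ : NeZero n := ⟨hnpos.ne'⟩
  set S : Finset ℕ := Finset.univ.image pos with hS
  have hScard : S.card = n := by
    rw [hS, Finset.card_image_of_injective _ hinj, Finset.card_univ]
  let f : Fin n ↪o ℕ := S.orderEmbOfFin hScard
  have hfS : ∀ i, ∃ u, pos u = f i := by
    intro i
    have : f i ∈ S := Finset.orderEmbOfFin_mem S hScard i
    rw [hS, Finset.mem_image] at this
    obtain ⟨u, -, hu⟩ := this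
    exact ⟨u, hu⟩
  choose σ0 hσ0 using fun i : ZMod n => hfS ⟨i.val, ZMod.val_lt i⟩
  have hσinj : Function.Injective σ0 := by
    intro i j hij
    have h1 := hσ0 i
    rw [hij, hσ0 j] at h1
    have h2 := f.injective h1
    simp only [Fin.mk.injEq] at h2
    exact (ZMod.val_injective n h2).symm
  have hσbij : Function.Bijective σ0 := by
    rw [Fintype.bijective_iff_injective_and_card]
    exact ⟨hσinj, by rw [ZMod.card]⟩
  have hnz : (0 : ℤ) < n := by exact_mod_cast hnpos
  have hNz : (0 : ℤ) < N := by exact_mod_cast hN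
  -- the cut positions
  have hflt : ∀ i, f i < N := by
    intro i
    obtain ⟨u, hu⟩ := hfS i
    rw [← hu]
    exact hpos u
  let F : ℤ → ℤ := fun j => ((f ⟨(j % n).toNat, by
    have h1 := Int.emod_nonneg j hnz.ne'
    have h2 := Int.emod_lt_of_pos j hnz
    omega⟩ : ℕ) : ℤ)
  let α : ℤ → ℤ := fun j => F j + N * (j / n)
  have hFper : ∀ j, F (j + n) = F j := by
    intro j
    simp only [F, Int.add_emod_right]
  have hαper : ∀ j, α (j + n) = α j + N := by
    intro j
    simp only [α, hFper]
    rw [Int.add_ediv_of_dvd_right (dvd_refl _), Int.ediv_self hnz.ne']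
    ring
  have hαt : ∀ j t : ℤ, α (j + n * t) = α j + N * t := by
    intro j t
    induction t using Int.induction_on with
    | zero => simp
    | succ t ih =>
      have := hαper (j + n * t)
      rw [ih] at this
      rw [show j + (n : ℤ) * (t + 1) = j + n * t + n by ring, this]
      ring
    | pred t ih =>
      have := hαper (j + n * (-(t : ℤ) - 1))
      rw [show j + (n : ℤ) * (-(t : ℤ) - 1) + n = j + n * -t by ring, ih] at this
      linarith
  have hαval : ∀ i : ZMod n, α i.val = pos (σ0 i) := by
    intro i
    have h1 : ((i.val : ℕ) : ℤ) % n = i.val :=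
      Int.emod_eq_of_lt (by positivity) (by exact_mod_cast ZMod.val_lt i)
    have h2 : ((i.val : ℕ) : ℤ) / n = 0 :=
      Int.ediv_eq_zero_of_lt (by positivity) (by exact_mod_cast ZMod.val_lt i)
    simp only [α, F, h1, h2, mul_zero, add_zero, Int.toNat_natCast]
    rw [hσ0]
  have hαmono : ∀ j, α j < α (j + 1) := by
    -- reduce to `0 ≤ j < n`
    have key : ∀ j : ℕ, j < n → α j < α (j + 1) := by
      intro j hj
      have h1 : ((j : ℕ) : ℤ) % n = j := Int.emod_eq_of_lt (by positivity) (by exact_mod_cast hj)
      have h2 : ((j : ℕ) : ℤ) / n = 0 := Int.ediv_eq_zero_of_lt (by positivity) (by exact_mod_cast hj)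
      have e1 : α j = (f ⟨j, hj⟩ : ℕ) := by
        simp only [α, F, h1, h2, mul_zero, add_zero, Int.toNat_natCast]
      by_cases hj1 : j + 1 < n
      · have h3 : ((j : ℕ) + 1 : ℤ) % n = (j + 1 : ℕ) := by
          push_cast
          exact Int.emod_eq_of_lt (by positivity) (by exact_mod_cast hj1)
        have h4 : ((j : ℕ) + 1 : ℤ) / n = 0 :=
          Int.ediv_eq_zero_of_lt (by positivity) (by exact_mod_cast hj1)
        have e2 : α (j + 1) = (f ⟨j + 1, hj1⟩ : ℕ) := by
          simp only [α, F, h3, h4, mul_zero, add_zero, Int.toNat_natCast]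
        rw [e1, e2]
        have : f ⟨j, hj⟩ < f ⟨j + 1, hj1⟩ := f.strictMono (by
          rw [Fin.lt_def]
          exact Nat.lt_succ_self j)
        exact_mod_cast this
      · have hj2 : j + 1 = n := by omega
        have e3 : (j : ℤ) + 1 = 0 + n := by
          rw [← hj2]
          push_cast
          ring
        rw [e3, hαper, e1]
        have h5 : 0 ≤ α 0 := by
          simp only [α, F, Int.zero_ediv, mul_zero, add_zero]
          positivity
        have h6 := hflt ⟨j, hj⟩
        have h7 : ((f ⟨j, hj⟩ : ℕ) : ℤ) < N := by exact_mod_cast h6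
        linarith
    intro j
    have h1 := Int.emod_nonneg j hnz.ne'
    have h2 := Int.emod_lt_of_pos j hnz
    have h3 := Int.emod_add_mul_ediv j n
    have h4 := key (j % n).toNat (by omega)
    rw [Int.toNat_of_nonneg h1] at h4
    have e1 : j = j % n + n * (j / n) := h3.symm
    have e2 : α j = α (j % n) + N * (j / n) := by
      conv_lhs => rw [e1]
      exact hαt _ _
    have e3 : α (j + 1) = α (j % n + 1) + N * (j / n) := by
      have : j + 1 = j % n + 1 + n * (j / n) := by linarith
      conv_lhs => rw [this]
      exact hαt _ _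
    rw [e2, e3]
    linarith
  have hWt : ∀ m t : ℤ, W (m + N * t) = W m := by
    intro m t
    have := per_mul hW m t
    rwa [mul_comm] at this
  let p : ZMod n → List A := fun i => win W (α i.val) (α (i.val + 1) - α i.val).toNat
  have hfac : Fac W p (cst n) α := by
    intro j
    have h1 := Int.emod_nonneg j hnz.ne'
    have h2 := Int.emod_lt_of_pos j hnz
    have h3 := Int.emod_add_mul_ediv j n
    have hv : ((cst n j).val : ℤ) = j % n := by
      simp only [cst]
      rw [ZMod.val_intCast]
    have e2 : α j = α (j % n) + N * (j / n) := by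
      conv_lhs => rw [← h3]
      exact hαt _ _
    have e3 : α (j + 1) = α (j % n + 1) + N * (j / n) := by
      have : j + 1 = j % n + 1 + n * (j / n) := by linarith
      conv_lhs => rw [this]
      exact hαt _ _
    have h4 := hαmono (j % n)
    constructor
    · simp only [p, length_win, hv]
      rw [Int.toNat_of_nonneg (by linarith)]
      linarith
    · simp only [p, length_win, hv]
      apply win_ext
      intro t _
      rw [e2, ← hWt (α (j % n) + t) (j / n)]
      congr 1
      ring
  have hα0 : α n - α 0 = N := by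
    have := hαper 0
    rw [zero_add] at this
    linarith
  refine ⟨n, hNZ, Equiv.ofBijective σ0 hσbij, p, α, ?_, hfac, hα0, ?_⟩
  · intro i
    apply List.ne_nil_of_length_pos
    simp only [p, length_win]
    have := hαmono i.val
    omega
  · intro i
    have h1 := hfac.flat (n * κ (σ0 i)) i.val
    have h2 := hαt i.val (κ (σ0 i))
    have h3 : ((win (cst n) (i.val : ℤ) (n * κ (σ0 i))).flatMap p).length = κ (σ0 i) * N := by
      have h4 := h1.1
      push_cast at h4
      rw [h2] at h4
      have h5 : (((win (cst n) (i.val : ℤ) (n * κ (σ0 i))).flatMap p).length : ℤ) =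
          ((κ (σ0 i) * N : ℕ) : ℤ) := by
        push_cast
        linarith
      exact_mod_cast h5
    have h6 := h1.2
    rw [h3, hαval] at h6
    simp only [tilde, Equiv.ofBijective_apply]
    rw [← h6, hz]

/-- Full answer to Q1: if `r_c(X) = card X`, the primitive roots of the elements of `X` are
pairwise conjugate and `w` has two different `X`-factorizations, then every `X`-factorization of
`w` is of the form `α^ℤ`. -/
theorem result {A : Type*} (X : Finset (List A)) (_hX : [] ∉ X)
    (hr : combRank (X : Set (List A)) = X.card)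
    (root : List A → List A) (hroot : ∀ u ∈ X, IsPrimitiveRoot (root u) u)
    (hconj : ∀ u ∈ X, ∀ v ∈ X, AreConjugate (root u) (root v))
    (w : ℤ → A) (c c' : ℤ → ℤ)
    (hc : IsFactorization (X : Set (List A)) w c) (hc' : IsFactorization (X : Set (List A)) w c')
    (hdiff : Set.range c ≠ Set.range c')
    (d : ℤ → ℤ) (hd : IsFactorization (X : Set (List A)) w d) :
    ∃ α ∈ X, ∀ i, factor w (d i) (d (i + 1)) = α := by
  classical
  obtain ⟨d', hd', hdd'⟩ : ∃ d', IsFactorization (X : Set (List A)) w d' ∧
      Set.range d ≠ Set.range d' := by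
    by_cases h : Set.range d = Set.range c
    · exact ⟨c', hc', by rw [h]; exact hdiff⟩
    · exact ⟨c, hc, h⟩
  have hfac : ∀ (k : ℤ → ℤ) (h : IsFactorization (X : Set (List A)) w k),
      Fac w (fun u : {u // u ∈ X} => u.1)
        (fun i => ⟨factor w (k i) (k (i + 1)), h.2.2.2 i⟩) k := by
    intro k h i
    have h4 : k i < k (i + 1) := h.1 (by omega)
    constructor
    · simp only [factor_eq_win, length_win]
      omega
    · simp only [factor_eq_win, length_win]
  have hfull := full_of_combRank hr
  -- a fixed element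
  set u0 : {u // u ∈ X} := ⟨factor w (d 0) (d (0 + 1)), hd.2.2.2 0⟩ with hu0
  have : Nonempty {u // u ∈ X} := ⟨u0⟩
  have hprim0 := (hroot u0.1 u0.2).1
  obtain ⟨W, hWper, hW0⟩ := exists_periodic (root u0.1) hprim0.1
  obtain ⟨N, hN⟩ : ∃ N, N = (root u0.1).length := ⟨_, rfl⟩
  have hNpos : 0 < N := by
    rw [hN]
    exact List.length_pos_iff.mpr hprim0.1
  rw [← hN] at hWper hW0
  have hWt : ∀ m t : ℤ, W (m + t * N) = W m := fun m t => per_mul hWper m t
  -- positions of the roots
  have hposex : ∀ u : {u // u ∈ X}, ∃ t : ℕ, t < N ∧ root u.1 = win W t N := by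
    intro u
    obtain ⟨p, q, hp, hq⟩ := hconj u0.1 u0.2 u.1 u.2
    have hlen : p.length + q.length = N := by
      rw [hN, hp, List.length_append]
    have h1 : win W p.length N = q ++ p := by
      have h2 := hW0
      rw [hp, ← hlen, win_add, zero_add] at h2
      obtain ⟨h3, h4⟩ := List.append_inj h2 (by simp)
      rw [← hlen, add_comm p.length q.length, win_add, h4]
      congr 1
      conv_rhs => rw [← h3]
      apply win_ext
      intro j _
      rw [← hWt (0 + j) 1]
      congr 1
      rw [← hlen]
      push_cast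
      ring
    refine ⟨p.length % N, Nat.mod_lt _ hNpos, ?_⟩
    rw [hq, ← h1]
    apply win_ext
    intro j _
    rw [← hWt (((p.length % N : ℕ) : ℤ) + j) ((p.length / N : ℕ) : ℤ)]
    congr 1
    have := Nat.mod_add_div' p.length N
    have h5 : ((p.length % N : ℕ) : ℤ) + ((p.length / N : ℕ) : ℤ) * N = (p.length : ℤ) := by
      exact_mod_cast this
    linarith
  choose pos hposlt hpos using hposex
  have hκex : ∀ u : {u // u ∈ X}, ∃ k : ℕ, 0 < k ∧ u.1 = win W (pos u) (k * N) := by
    intro u
    obtain ⟨k, hk, hu⟩ := (hroot u.1 u.2).2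
    refine ⟨k, hk, ?_⟩
    rw [win_power hWper, ← hpos u, ← hu]
  choose κ hκpos hκ using hκex
  obtain ⟨n, hn, σ, p, α, hp, hfacp, hαN, hflat⟩ :=
    circ_structure (fun u : {u // u ∈ X} => u.1) hfull W N hNpos hWper pos κ hposlt hκpos hκ
  have hfullσ : Full (fun i : ZMod n => (tilde (fun i => κ (σ i)) i).flatMap p) := by
    have h1 := full_equiv hfull σ
    have h2 : (fun i : ZMod n => (tilde (fun i => κ (σ i)) i).flatMap p) =
        (fun i => (σ i).1) := funext hflat
    rw [h2]
    exact h1
  have hfullp : Full p := hfullσ.of_gen p le_rfl (fun i => ⟨_, rfl⟩)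
  have hfac' : ∀ (k : ℤ → ℤ) (h : IsFactorization (X : Set (List A)) w k),
      Fac w (fun i : ZMod n => (tilde (fun i => κ (σ i)) i).flatMap p)
        (fun i => σ.symm ⟨factor w (k i) (k (i + 1)), h.2.2.2 i⟩) k := by
    intro k h i
    have h1 := hfac k h i
    have h2 : (tilde (fun i => κ (σ i)) (σ.symm ⟨factor w (k i) (k (i + 1)), h.2.2.2 i⟩)).flatMap p
        = factor w (k i) (k (i + 1)) := by
      rw [hflat, Equiv.apply_symm_apply]
    simp only [h2]
    exact h1
  have hconst := circ_const p hp hfullp (fun i => κ (σ i)) (fun i => hκpos _) hfullσ W α hfacp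
    (fun e he => by
      rw [hαN]
      exact primitive_period hNpos hWper (by rw [hW0]; exact hprim0) e he)
    w _ _ d d' (hfac' d hd) (hfac' d' hd') hdd'
  refine ⟨u0.1, u0.2, ?_⟩
  intro i
  have h1 := σ.symm.injective (hconst i)
  exact congrArg Subtype.val h1

end Pool.Agent.Results.MP_b2f7c1_co.ConjugateRoots
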